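import Pool.Agent.Helper75.PX.Stmts3
import Pool.Agent.Helper50.PX.TRZ

/-!
# An element with four vanishing traces (row V3 of the sheet PX)
-/

set_option autoImplicit false

universe u

open Module Polynomial

namespace Pool.Agent.Helper75.PX

theorem V3_deg (h2 : ST_MDV.{u}) (K D : Type u) [Field K] [DivisionRing D]
    [Algebra K D] [FiniteDimensional K D] (hd : finrank K D = 9) (i : D) (c : K)
    (hi : i * i * i = algebraMap K D c) (hik : ∀ k : K, i ≠ algebraMap K D k) :
    (minpoly K i).natDegree = 3 := by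
  have hdv : (minpoly K i).natDegree ∣ 9 := hd ▸ h2 K D i
  have hint : IsIntegral K i := Algebra.IsIntegral.isIntegral i
  have hle : (minpoly K i).natDegree ≤ 3 := by
    have hm : (X ^ 3 - C c : K[X]).Monic := monic_X_pow_sub_C c (by norm_num)
    have h0 : aeval i (X ^ 3 - C c : K[X]) = 0 := by
      rw [map_sub, map_pow, aeval_X, aeval_C, ← hi, pow_succ, pow_two, sub_self]
    have h1 := minpoly.min K i hm h0
    have h3 := natDegree_le_natDegree h1
    rwa [natDegree_X_pow_sub_C] at h3
  have hne : (minpoly K i).natDegree ≠ 1 := by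
    intro h1
    have h0 := minpoly.aeval K i
    have hm := (minpoly.monic hint).coeff_natDegree
    rw [h1] at hm
    rw [aeval_eq_sum_range, h1] at h0
    simp only [Finset.sum_range_succ, Finset.sum_range_zero, hm, pow_zero, pow_one, one_smul,
      zero_add] at h0
    apply hik (-(minpoly K i).coeff 0)
    rw [map_neg, Algebra.algebraMap_eq_smul_one]
    exact eq_neg_of_add_eq_zero_right h0
  have hpos : 0 < (minpoly K i).natDegree := minpoly.natDegree_pos hint
  generalize (minpoly K i).natDegree = m at *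
  interval_cases m <;> omega

/-- the dimension of `K(i)` -/
theorem V3_dim (K D : Type u) [Field K] [DivisionRing D]
    [Algebra K D] [FiniteDimensional K D] (i : D) (h : (minpoly K i).natDegree = 3) :
    finrank K (trz_E K i) = 3 := by
  refine le_antisymm (h ▸ trz_finrank i) ?_
  have hli : LinearIndependent K (fun n : Fin (minpoly K i).natDegree => i ^ (n : ℕ)) :=
    linearIndependent_pow i
  let g : Fin (minpoly K i).natDegree → trz_E K i := fun n => ⟨i ^ (n : ℕ), X ^ (n : ℕ), by simp⟩
  have hg : LinearIndependent K g := by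
    have : (fun n : Fin (minpoly K i).natDegree => i ^ (n : ℕ)) = (trz_E K i).subtype ∘ g := rfl
    rw [this] at hli
    exact LinearIndependent.of_comp _ hli
  have h1 := hg.fintype_card_le_finrank
  rw [Fintype.card_fin, h] at h1
  exact h1

/-- an element that commutes with `i` is in `K(i)` -/
theorem V3_cen (K D : Type u) [Field K] [DivisionRing D]
    [Algebra K D] [Algebra.IsCentral K D] [FiniteDimensional K D] (hd : finrank K D = 9) (i : D)
    (hik : ∀ k : K, i ≠ algebraMap K D k) (h : finrank K (trz_E K i) = 3) (v : D)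
    (hv : v * i = i * v) : v ∈ trz_E K i := by
  by_contra hvE
  -- elements of `E` commute with `i`
  have hE : ∀ e ∈ trz_E K i, e * i = i * e := by
    rintro _ ⟨p, rfl⟩
    have h1 : Commute (aeval i p) i := by
      have h2 : Commute (aeval i p) (aeval i (X : K[X])) := by
        rw [Commute, SemiconjBy, ← map_mul, ← map_mul, mul_comm]
      rwa [aeval_X] at h2
    exact h1
  -- an element that does not commute with `i`
  obtain ⟨d, hdi⟩ : ∃ d : D, d * i ≠ i * d := by
    by_contra hcon
    push Not at hcon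
    have h1 : i ∈ Subalgebra.center K D := Subalgebra.mem_center_iff.2 hcon
    have h2 := Algebra.IsCentral.out (K := K) (D := D) h1
    obtain ⟨k, hk⟩ := Algebra.mem_bot.1 h2
    exact hik k hk.symm
  let L : (trz_E K i × trz_E K i) × (trz_E K i × trz_E K i) →ₗ[K] D :=
    LinearMap.coprod
      (LinearMap.coprod (trz_E K i).subtype (LinearMap.mulLeft K v ∘ₗ (trz_E K i).subtype))
      (LinearMap.mulRight K d ∘ₗ
        LinearMap.coprod (trz_E K i).subtype (LinearMap.mulLeft K v ∘ₗ (trz_E K i).subtype))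
  have hL : ∀ a b e f : trz_E K i, L ((a, b), (e, f)) =
      ((a : D) + v * b) + ((e : D) + v * f) * d := fun a b e f => rfl
  -- `a + v b = 0` only for `a = b = 0`
  have hab : ∀ a b : trz_E K i, (a : D) + v * b = 0 → a = 0 ∧ b = 0 := by
    intro a b h0
    by_cases hb : (b : D) = 0
    · rw [hb, mul_zero, add_zero] at h0
      exact ⟨Subtype.ext h0, Subtype.ext hb⟩
    · exfalso
      apply hvE
      have h1 : v = -(a : D) * (b : D)⁻¹ := by
        rw [eq_mul_inv_iff_mul_eq₀ hb]
        exact eq_neg_of_add_eq_zero_right h0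
      rw [h1]
      exact trz_mul (Submodule.neg_mem _ a.2) (trz_inv b.2 hb)
  have hinj : Function.Injective L := by
    rw [injective_iff_map_eq_zero]
    rintro ⟨⟨a, b⟩, ⟨e, f⟩⟩ h0
    rw [hL] at h0
    have hcomm : ∀ a b : trz_E K i, ((a : D) + v * b) * i = i * ((a : D) + v * b) := by
      intro a b
      rw [add_mul, mul_add, hE _ a.2, mul_assoc, hE _ b.2, ← mul_assoc, hv, mul_assoc]
    by_cases hef : (e : D) + v * f = 0
    · rw [hef, zero_mul, add_zero] at h0
      obtain ⟨ha, hb⟩ := hab a b h0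
      obtain ⟨he, hf⟩ := hab e f hef
      rw [ha, hb, he, hf]
      rfl
    · exfalso
      apply hdi
      have h1 : d = ((e : D) + v * f)⁻¹ * (-((a : D) + v * b)) := by
        rw [eq_inv_mul_iff_mul_eq₀ hef]
        exact eq_neg_of_add_eq_zero_right h0
      have h2 : Commute ((e : D) + v * f) i := hcomm e f
      have h3 : Commute (-((a : D) + v * b)) i := Commute.neg_left (hcomm a b)
      have h4 : Commute (((e : D) + v * f)⁻¹ * (-((a : D) + v * b))) i :=
        Commute.mul_left (Commute.inv_left₀ h2) h3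
      rw [h1]
      exact h4
  have h5 := LinearMap.finrank_le_finrank_of_injective hinj
  rw [Module.finrank_prod, Module.finrank_prod, h, hd] at h5
  omega

theorem st_V3 (_h1 : ST_MPD.{u}) (h2 : ST_MDV.{u}) : ST_V3.{u} := by
  intro K D _ _ _ _ hd h3K i c hi hik
  have : FiniteDimensional K D := Module.finite_of_finrank_pos (by rw [hd]; norm_num)
  have hE3 : finrank K (trz_E K i) = 3 := V3_dim K D i (V3_deg h2 K D hd i c hi hik)
  have hi0 : i ≠ 0 := fun h => hik 0 (by rw [h, map_zero])
  -- the vector `w`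
  let φ : D →ₗ[K] (trz_E K i →ₗ[K] K) :=
    { toFun := fun v => trz_T K D ∘ₗ LinearMap.mulRight K v ∘ₗ (trz_E K i).subtype
      map_add' := by
        intro v w
        ext e
        simp [mul_add]
      map_smul' := by
        intro c v
        ext e
        simp }
  have hφ : ∀ (v : D) (e : trz_E K i), φ v e = trL K ((e : D) * v) := fun v e => rfl
  have hker : LinearMap.ker φ ≠ ⊥ := by
    apply LinearMap.ker_ne_bot_of_finrank_lt
    rw [Module.finrank_linearMap, Module.finrank_self, mul_one, hE3, hd]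
    norm_num
  obtain ⟨w, hw, hw0⟩ := (Submodule.ne_bot_iff _).1 hker
  have hw' : ∀ e ∈ trz_E K i, trL K (e * w) = 0 := by
    intro e he
    rw [← hφ w ⟨e, he⟩, LinearMap.mem_ker.1 hw]
    rfl
  -- the element `f`
  let ψ : trz_E K i →ₗ[K] K × K :=
    LinearMap.prod (trz_T K D ∘ₗ LinearMap.mulLeft K w⁻¹ ∘ₗ (trz_E K i).subtype)
      (trz_T K D ∘ₗ LinearMap.mulLeft K w⁻¹ ∘ₗ LinearMap.mulRight K i⁻¹ ∘ₗ (trz_E K i).subtype)
  have hψ : ∀ e : trz_E K i, ψ e = (trL K (w⁻¹ * e), trL K (w⁻¹ * (e * i⁻¹))) := fun e => rfl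
  have hker2 : LinearMap.ker ψ ≠ ⊥ := by
    apply LinearMap.ker_ne_bot_of_finrank_lt
    rw [Module.finrank_prod, Module.finrank_self, hE3]
    norm_num
  obtain ⟨f, hf, hf0⟩ := (Submodule.ne_bot_iff _).1 hker2
  have hf1 : ψ f = 0 := LinearMap.mem_ker.1 hf
  rw [hψ] at hf1
  have hfa : trL K (w⁻¹ * (f : D)) = 0 := (Prod.ext_iff.1 hf1).1
  have hfb : trL K (w⁻¹ * ((f : D) * i⁻¹)) = 0 := (Prod.ext_iff.1 hf1).2
  have hf0' : (f : D) ≠ 0 := fun h => hf0 (Subtype.ext h)
  have hfi : (f : D)⁻¹ ∈ trz_E K i := trz_inv f.2 hf0'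
  refine ⟨(f : D)⁻¹ * w, mul_ne_zero (inv_ne_zero hf0') hw0, hw' _ hfi, ?_, ?_, ?_, ?_⟩
  · rw [mul_inv_rev, inv_inv]
    exact hfa
  · rw [← mul_assoc]
    exact hw' _ (trz_mul (trz_self i) hfi)
  · rw [mul_inv_rev, mul_inv_rev, inv_inv, mul_assoc]
    exact hfb
  · intro hcomm
    have hvE := V3_cen K D hd i hik hE3 _ hcomm
    have hwE : w ∈ trz_E K i := by
      have h1 := trz_mul f.2 hvE
      rwa [← mul_assoc, mul_inv_cancel₀ hf0', one_mul] at h1
    have h1 := hw' _ (trz_inv hwE hw0)
    rw [inv_mul_cancel₀ hw0] at h1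
    have h4 : trL K (1 : D) = 9 := by
      unfold trL
      rw [LinearMap.mulLeft_one, LinearMap.trace_id, hd]
      norm_num
    rw [h4] at h1
    have h5 : (9 : K) = 3 * 3 := by norm_num
    rw [h5] at h1
    exact mul_ne_zero h3K h3K h1

end Pool.Agent.Helper75.PX
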